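import Pool.Agent.P.MP_a69370_nt.Inc

/-!
Ternary digits of `l * 4 ^ m - 1`.
-/

open Finset

namespace Pool.Agent.P.MP_a69370_nt

/-- the lowest `s` ternary digits of `n` differ from `2` -/
def G : ℕ → ℕ → Prop
  | 0, _ => True
  | s + 1, n => n % 3 ≠ 2 ∧ G s (n / 3)

theorem G_add_mul (s : ℕ) : ∀ n w, G s (n + 3 ^ s * w) ↔ G s n := by
  induction s with
  | zero => intro n w; simp [G]
  | succ s ih =>
    intro n w
    have h1 : (n + 3 ^ (s + 1) * w) % 3 = n % 3 := by
      rw [pow_succ', mul_assoc, Nat.add_mul_mod_self_left]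
    have h2 : (n + 3 ^ (s + 1) * w) / 3 = n / 3 + 3 ^ s * w := by
      rw [pow_succ', mul_assoc, Nat.add_mul_div_left _ _ (by norm_num)]
    simp only [G, h1, h2, ih]

theorem G_mod (s n : ℕ) : G s (n % 3 ^ s) ↔ G s n := by
  rw [← G_add_mul s (n % 3 ^ s) (n / 3 ^ s), Nat.mod_add_div]

theorem G_div {n : ℕ} (h : ∀ s, G s n) (r : ℕ) : ∀ s, G s (n / 3 ^ r) := by
  induction r with
  | zero => simpa using h
  | succ r ih =>
    intro s
    rw [pow_succ, ← Nat.div_div_eq_div_mul]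
    exact (ih (s + 1)).2

open Classical in
theorem card_G (s : ℕ) : ((range (3 ^ s)).filter (G s)).card ≤ 2 ^ s := by
  induction s with
  | zero => exact (card_filter_le _ _).trans (by simp)
  | succ s ih =>
    have h1 : ((range (3 ^ (s + 1))).filter (G (s + 1))).card ≤
        (range 2 ×ˢ (range (3 ^ s)).filter (G s)).card := by
      refine card_le_card_of_injOn (fun x => (x % 3, x / 3)) ?_ ?_
      · intro x hx
        obtain ⟨h1, h2, h3⟩ := mem_filter.1 (mem_coe.1 hx)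
        rw [mem_range, pow_succ] at h1
        simp only [coe_product, Set.mem_prod, mem_coe, mem_range, mem_filter]
        exact ⟨by omega, by omega, h3⟩
      · intro x _ y _ h
        simp only [Prod.mk.injEq] at h
        omega
    rw [card_product, card_range] at h1
    rw [pow_succ 2]
    omega

theorem G_of_choose (s : ℕ) : ∀ n, ¬ 3 ∣ (2 * n).choose n → G s n := by
  induction s with
  | zero => intro n _; trivial
  | succ s ih =>
    intro n h
    have : Fact (Nat.Prime 3) := ⟨Nat.prime_three⟩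
    have h1 := Choose.choose_modEq_choose_mod_mul_choose_div_nat (n := 2 * n) (k := n) (p := 3)
    have h2 : ¬ 3 ∣ (2 * n % 3).choose (n % 3) * (2 * n / 3).choose (n / 3) := fun h3 =>
      h ((h1.dvd_iff dvd_rfl).2 h3)
    have h3 : n % 3 ≠ 2 := by
      intro h4
      have h5 : 2 * n % 3 = 1 := by omega
      rw [h4, h5] at h2
      simp at h2
    refine ⟨h3, ih _ fun h4 => h2 (Dvd.dvd.mul_left ?_ _)⟩
    have h5 : 2 * n / 3 = 2 * (n / 3) := by omega
    rw [h5]
    exact h4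

theorem G_of_catalan {k : ℕ} (h : ¬ 3 ∣ catalan (2 ^ k - 1)) (s : ℕ) : G s (2 ^ k - 1) := by
  refine G_of_choose s _ fun h1 => h ?_
  rw [← Nat.centralBinom_eq_two_mul_choose, ← succ_mul_catalan_eq_centralBinom,
    Nat.sub_add_cancel Nat.one_le_two_pow] at h1
  refine ((Nat.Prime.dvd_mul Nat.prime_three).1 h1).resolve_left fun h2 => ?_
  have := Nat.prime_three.dvd_of_dvd_pow h2
  omega

theorem four_pow (n : ℕ) : ∃ u, ¬ 3 ∣ u ∧ 4 ^ 3 ^ n = 1 + 3 ^ (n + 1) * u := by
  induction n with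
  | zero => exact ⟨1, by norm_num, by norm_num⟩
  | succ n ih =>
    obtain ⟨u, hu, h⟩ := ih
    refine ⟨u + 3 * (3 ^ n * u ^ 2 + 3 ^ (2 * n) * u ^ 3), fun h1 => hu ?_, ?_⟩
    · exact (Nat.dvd_add_left (dvd_mul_right 3 _)).1 h1
    · rw [pow_succ 3 n, pow_mul, h]
      ring

theorem one_add_pow (x t : ℕ) : ∃ w, (1 + x) ^ t = 1 + t * x + x ^ 2 * w := by
  induction t with
  | zero => exact ⟨0, by simp⟩
  | succ t ih =>
    obtain ⟨w, h⟩ := ih
    exact ⟨w + t + x * w, by rw [pow_succ, h]; ring⟩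

theorem sum_range_mul (F : ℕ → ℝ) (N T : ℕ) :
    ∑ x ∈ range (N * T), F x = ∑ t ∈ range T, ∑ m ∈ range N, F (N * t + m) := by
  induction T with
  | zero => simp
  | succ T ih => rw [Nat.mul_succ, Finset.sum_range_add, ih, Finset.sum_range_succ]

theorem unit_of {q s u : ℕ} (hq : q = 3 ^ s) (hu : ¬ 3 ∣ u) : IsUnit (u : ZMod q) := by
  rw [ZMod.isUnit_iff_coprime, hq]
  exact Nat.Coprime.pow_right _ ((Nat.Prime.coprime_iff_not_dvd Nat.prime_three).2 hu).symm

theorem diff_dvd {q s τ : ℕ} (hq : q = 3 ^ s) {d : ℕ} (h0 : d ≠ 0) (hd : d < 3 ^ τ) :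
    ∃ e : ZMod q, (d : ZMod q) * e = ((3 ^ τ : ℕ) : ZMod q) := by
  obtain ⟨v, d', h1, rfl⟩ := Nat.exists_eq_pow_mul_and_not_dvd h0 3 (by norm_num)
  have h2 : d' ≠ 0 := by rintro rfl; simp at h1
  have h3 : v ≤ τ := by
    have : 3 ^ v < 3 ^ τ := lt_of_le_of_lt (Nat.le_mul_of_pos_right _ (Nat.pos_of_ne_zero h2)) hd
    exact ((Nat.pow_lt_pow_iff_right (by norm_num)).1 this).le
  obtain ⟨w, hw⟩ := (unit_of hq h1).exists_right_inv
  obtain ⟨j, rfl⟩ := Nat.exists_eq_add_of_le h3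
  refine ⟨w * 3 ^ j, ?_⟩
  push_cast
  linear_combination (3 ^ v * 3 ^ j : ZMod q) * hw

open Classical in
theorem sum_ind {q s : ℕ} [NeZero q] (hq : q = 3 ^ s) :
    ∑ y : ZMod q, (if G s y.val then (1 : ℝ) else 0) ≤ 2 ^ s := by
  rw [← sum_range_cast (fun y : ZMod q => if G s y.val then (1 : ℝ) else 0)]
  have h1 : ∀ x ∈ range q, (if G s (x : ZMod q).val then (1 : ℝ) else 0) =
      if G s x then 1 else 0 := fun x hx => by rw [ZMod.val_cast_of_lt (mem_range.1 hx)]
  rw [Finset.sum_congr rfl h1, Finset.sum_boole, hq]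
  exact_mod_cast card_G s

open Classical in
/-- the main count -/
theorem count {a : ℕ} (ha : ¬ 3 ∣ a) (n τ h : ℕ) (hs : n + 1 = τ + h) {l : ℝ} (hl : 0 < l) :
    (((range (3 ^ n * 3 ^ τ)).filter fun m => ∀ s, G s (a * 4 ^ m - 1)).card : ℝ) ≤
      2 * 2 ^ (n + 1) * 2 ^ (n + 1) / 3 ^ h + 2 ^ (n + 1) * l +
        2 * 3 ^ (n + 1) * 2 ^ (n + 1) / l := by
  obtain ⟨u, hu, h4⟩ := four_pow n
  obtain ⟨q, hq⟩ : ∃ q, q = 3 ^ (n + 1) := ⟨_, rfl⟩
  have hq0 : 0 < q := by rw [hq]; positivity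
  have : NeZero q := ⟨hq0.ne'⟩
  rw [← hq] at h4
  have ha0 : 0 < a := Nat.pos_of_ne_zero (by rintro rfl; simp at ha)
  have hpos : ∀ m, 1 ≤ a * 4 ^ m := fun m => Nat.mul_pos ha0 (by positivity)
  set S := (range (3 ^ n)).filter fun m => G (n + 1) (a * 4 ^ m - 1) with hS
  set g : ZMod q → ℝ := fun y => if G (n + 1) y.val then 1 else 0 with hg
  set θ : ℕ → ZMod q := fun m => (a : ZMod q) * 4 ^ m * u with hθ
  set b : ℕ → ZMod q := fun m => (((a * 4 ^ m - 1) / q : ℕ) : ZMod q) with hb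
  have hua := unit_of hq ha
  have huu := unit_of hq hu
  have hu4 : IsUnit (4 : ZMod q) := by exact_mod_cast unit_of (u := 4) hq (by norm_num)
  have hord : orderOf (4 : ZMod q) = 3 ^ n := by
    subst hq
    have := ZMod.orderOf_one_add_mul_prime Nat.prime_three (by norm_num) 1 (by norm_num) n
    convert this using 2
    norm_num
  have hinj : ∀ m ∈ range (3 ^ n), ∀ m' ∈ range (3 ^ n),
      (a : ZMod q) * 4 ^ m = a * 4 ^ m' → m = m' := by
    intro m hm m' hm' h1
    have h2 := hua.mul_left_cancel h1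
    obtain ⟨v, hv⟩ := hu4
    have h3 : orderOf v = 3 ^ n := by rw [← orderOf_units, hv, hord]
    refine pow_injOn_Iio_orderOf (x := v) (by rw [h3]; simpa using hm) (by rw [h3]; simpa using hm')
      (Units.ext ?_)
    simpa [hv] using h2
  have hcard : (S.card : ℝ) ≤ 2 ^ (n + 1) := by
    have h1 : S.card ≤ ((range (3 ^ (n + 1))).filter (G (n + 1))).card := by
      refine card_le_card_of_injOn (fun m => (a * 4 ^ m - 1) % 3 ^ (n + 1)) ?_ ?_
      · intro m hm
        exact mem_coe.2 (mem_filter.2 ⟨mem_range.2 (Nat.mod_lt _ (by positivity)),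
          (G_mod _ _).2 (mem_filter.1 (mem_coe.1 hm)).2⟩)
      · intro m hm m' hm' h2
        refine hinj m (mem_filter.1 (mem_coe.1 hm)).1 m' (mem_filter.1 (mem_coe.1 hm')).1 ?_
        simp only [← hq] at h2
        have h3 := (ZMod.natCast_eq_natCast_iff' _ _ q).2 h2
        rw [Nat.cast_sub (hpos m), Nat.cast_sub (hpos m')] at h3
        push_cast at h3
        linear_combination h3
    exact_mod_cast h1.trans (card_G _)
  have hg0 : ∀ y, 0 ≤ g y := fun y => by simp only [hg]; split_ifs <;> norm_num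
  have hg1 : ∀ y, g y ≤ 1 := fun y => by simp only [hg]; split_ifs <;> norm_num
  have hinc := incidence (q := q) (T := 3 ^ τ) (n := 3 ^ h) (by rw [hq, hs, pow_add]) (by
      intro t ht t' ht' hne
      rw [mem_range] at ht ht'
      rcases lt_or_gt_of_ne hne with h1 | h1
      · obtain ⟨e, he⟩ := diff_dvd (τ := τ) hq (d := t' - t) (by omega) (by omega)
        exact ⟨e, by rw [← he, Nat.cast_sub h1.le]⟩
      · obtain ⟨e, he⟩ := diff_dvd (τ := τ) hq (d := t - t') (by omega) (by omega)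
        exact ⟨-e, by rw [← he, Nat.cast_sub h1.le]; ring⟩)
    g hg0 hg1 S θ b (fun m _ => (hua.mul (hu4.pow m)).mul huu)
    (fun m hm m' hm' h1 => hinj m (mem_filter.1 (mem_coe.1 hm)).1 m' (mem_filter.1 (mem_coe.1 hm')).1
      (huu.mul_right_cancel h1)) hl
  have hkey : ∀ m t : ℕ, (∀ s, G s (a * 4 ^ (3 ^ n * t + m) - 1)) →
      G (n + 1) (a * 4 ^ m - 1) ∧ g (b m + θ m * t) = 1 := by
    intro m t hG
    obtain ⟨w, hw⟩ := one_add_pow (q * u) t
    have h1 : a * 4 ^ (3 ^ n * t + m) - 1 =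
        a * 4 ^ m - 1 + q * (a * 4 ^ m * u * t + q * (a * 4 ^ m * u ^ 2 * w)) := by
      have h2 := hpos m
      rw [pow_add, pow_mul, h4, hw]
      have h3 : a * ((1 + t * (q * u) + (q * u) ^ 2 * w) * 4 ^ m) =
        a * 4 ^ m + q * (a * 4 ^ m * u * t + q * (a * 4 ^ m * u ^ 2 * w)) := by ring
      omega
    rw [h1] at hG
    refine ⟨by have := hG (n + 1); rwa [hq, G_add_mul] at this, ?_⟩
    have h2 := G_div hG (n + 1) (n + 1)
    rw [← hq, Nat.add_mul_div_left _ _ hq0] at h2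
    have h3 : b m + θ m * t = (((a * 4 ^ m - 1) / q +
        (a * 4 ^ m * u * t + q * (a * 4 ^ m * u ^ 2 * w)) : ℕ) : ZMod q) := by
      simp only [hb, hθ]
      push_cast
      simp
    simp only [hg]
    rw [if_pos]
    rw [h3, ZMod.val_natCast]
    have h5 := (G_mod _ _).2 h2
    rwa [← hq] at h5
  have hm := sum_ind hq
  have hm0 : 0 ≤ ∑ y, g y := Finset.sum_nonneg fun y _ => hg0 y
  calc (((range (3 ^ n * 3 ^ τ)).filter fun m => ∀ s, G s (a * 4 ^ m - 1)).card : ℝ)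
      = ∑ m ∈ range (3 ^ n * 3 ^ τ), if ∀ s, G s (a * 4 ^ m - 1) then (1 : ℝ) else 0 := by
        rw [Finset.sum_boole]
    _ = ∑ m ∈ range (3 ^ n), ∑ t ∈ range (3 ^ τ),
          if ∀ s, G s (a * 4 ^ (3 ^ n * t + m) - 1) then (1 : ℝ) else 0 := by
        rw [sum_range_mul, Finset.sum_comm]
    _ ≤ ∑ m ∈ range (3 ^ n), if G (n + 1) (a * 4 ^ m - 1) then
          ∑ t ∈ range (3 ^ τ), g (b m + θ m * t) else 0 := by
        refine Finset.sum_le_sum fun m _ => ?_
        split_ifs with h1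
        · refine Finset.sum_le_sum fun t _ => ?_
          split_ifs with h2
          · exact (hkey m t h2).2.ge
          · exact hg0 _
        · exact (Finset.sum_eq_zero fun t _ => if_neg fun h2 => h1 (hkey m t h2).1).le
    _ = ∑ m ∈ S, ∑ t ∈ range (3 ^ τ), g (b m + θ m * t) := by rw [hS, Finset.sum_filter]
    _ ≤ _ := hinc
    _ ≤ _ := by
        have h1 : (q : ℝ) = 3 ^ (n + 1) := by rw [hq]; push_cast; ring
        rw [h1]
        push_cast
        gcongr

end Pool.Agent.P.MP_a69370_nt
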