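import Pool.Agent.P.MP_a69370_nt.Dig

/-!
Choice of the parameters.
-/

open Finset

namespace Pool.Agent.P.MP_a69370_nt

open Classical in
theorem count2 {a : ℕ} (ha : ¬ 3 ∣ a) (X r : ℕ) (hX : (X : ℝ) ≤ (243 / 4) ^ r) :
    (((range X).filter fun m => ∀ s, G s (a * 4 ^ m - 1)).card : ℝ) ≤ 23 * 12 ^ (r + 4) := by
  obtain ⟨n, hn⟩ : ∃ n, n = 2 * r + 7 := ⟨_, rfl⟩
  have hex : ∃ τ, X ≤ 3 ^ n * 3 ^ τ := ⟨X, (Nat.lt_pow_self (by norm_num)).le.trans
    (Nat.le_mul_of_pos_left _ (by positivity))⟩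
  set τ := Nat.find hex with hτ
  have h1 : X ≤ 3 ^ n * 3 ^ τ := Nat.find_spec hex
  have h2 : τ ≤ n + 1 := by
    refine Nat.find_min' hex ?_
    have h3 : (X : ℝ) ≤ 3 ^ n * 3 ^ (n + 1) := by
      calc (X : ℝ) ≤ (243 / 4) ^ r := hX
        _ ≤ 81 ^ r := by gcongr; norm_num
        _ = 3 ^ (4 * r) := by rw [pow_mul]; norm_num
        _ ≤ 3 ^ (n + (n + 1)) := by gcongr <;> [norm_num; omega]
        _ = _ := pow_add _ _ _
    exact_mod_cast h3
  have h3 : (3 : ℝ) ^ n * 3 ^ τ ≤ 3 ^ n + 3 * X := by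
    rcases Nat.eq_zero_or_pos τ with h | h
    · rw [h]
      have : (0 : ℝ) ≤ X := Nat.cast_nonneg _
      linarith
    · obtain ⟨j, hj⟩ : ∃ j, τ = j + 1 := ⟨τ - 1, by omega⟩
      have h4 : ¬ X ≤ 3 ^ n * 3 ^ j := Nat.find_min hex (by omega)
      have h5 : (3 : ℝ) ^ n * 3 ^ j ≤ X := by exact_mod_cast (not_le.1 h4).le
      have h6 : (0 : ℝ) ≤ 3 ^ n := by positivity
      rw [hj, pow_succ]
      linarith
  obtain ⟨h, hh⟩ := Nat.exists_eq_add_of_le h2
  have hc := count ha n τ h hh (l := 3 ^ (r + 4)) (by positivity)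
  have h4 : (((range X).filter fun m => ∀ s, G s (a * 4 ^ m - 1)).card : ℝ) ≤
      ((range (3 ^ n * 3 ^ τ)).filter fun m => ∀ s, G s (a * 4 ^ m - 1)).card := by
    exact_mod_cast card_le_card (filter_subset_filter _ (range_subset_range.2 h1))
  refine h4.trans (hc.trans ?_)
  have e2 : (2 : ℝ) ^ (n + 1) = 4 ^ (r + 4) := by
    rw [hn, show 2 * r + 7 + 1 = 2 * (r + 4) by ring, pow_mul]; norm_num
  have e3 : (3 : ℝ) ^ (n + 1) = 3 ^ (r + 4) * 3 ^ (r + 4) := by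
    rw [← pow_add, hn]; congr 1; ring
  have e12 : (12 : ℝ) ^ (r + 4) = 4 ^ (r + 4) * 3 ^ (r + 4) := by rw [← mul_pow]; norm_num
  have e4 : (3 : ℝ) ^ τ * 3 ^ h = 3 ^ (r + 4) * 3 ^ (r + 4) := by rw [← pow_add, ← hh, e3]
  have e5 : (3 : ℝ) ^ n * 3 = 3 ^ (r + 4) * 3 ^ (r + 4) := by rw [← pow_succ, e3]
  have hXr : (X : ℝ) * 4 ^ (r + 4) ≤ (3 ^ (r + 4)) ^ 5 := by
    calc (X : ℝ) * 4 ^ (r + 4) ≤ (243 / 4) ^ (r + 4) * 4 ^ (r + 4) := by
          gcongr
          exact hX.trans (by gcongr <;> [norm_num; omega])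
      _ = (3 ^ (r + 4)) ^ 5 := by rw [← mul_pow, ← pow_mul, mul_comm (r + 4) 5, pow_mul]; norm_num
  have h43 : (4 : ℝ) ^ (r + 4) ≤ (3 ^ (r + 4)) ^ 3 := by
    rw [← pow_mul, mul_comm (r + 4) 3, pow_mul]
    gcongr
    norm_num
  rw [e2, e3, e12]
  generalize (4 : ℝ) ^ (r + 4) = F at *
  have hP : (0 : ℝ) < 3 ^ (r + 4) := by positivity
  have hH : (0 : ℝ) < 3 ^ h := by positivity
  have hT : (0 : ℝ) < 3 ^ τ := by positivity
  have hF : 0 < F := by rw [← e2]; positivity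
  generalize (3 : ℝ) ^ (r + 4) = P at *
  generalize (3 : ℝ) ^ h = H at *
  generalize (3 : ℝ) ^ τ = T at *
  generalize (3 : ℝ) ^ n = N at *
  have h5 : 2 * (P * P) * F / P = 2 * (F * P) := by field_simp
  have h6 : F ≤ 10 * P * H := by
    have h7 : P * P * T ≤ P * P + 9 * X := by rw [← e5]; linarith
    have h8 : F * (P * P * T) ≤ 10 * P ^ 5 := by nlinarith [mul_pos hP hP]
    have h9 : 10 * P * H * (P * P * T) = 10 * P ^ 5 := by
      calc 10 * P * H * (P * P * T) = 10 * P * (P * P) * (T * H) := by ring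
        _ = _ := by rw [e4]; ring
    exact le_of_mul_le_mul_right (h8.trans h9.ge) (by positivity)
  have h7 : 2 * F * F / H ≤ 20 * (F * P) := by
    rw [div_le_iff₀ hH]
    nlinarith
  rw [h5]
  linarith

open Classical in
theorem count3 (X r : ℕ) (hX : (X : ℝ) ≤ (243 / 4) ^ r) :
    (((range X).filter fun k => ¬ 3 ∣ catalan (2 ^ k - 1)).card : ℝ) ≤ 46 * 12 ^ (r + 4) := by
  have h1 := count2 (a := 1) (by norm_num) X r hX
  have h2 := count2 (a := 2) (by norm_num) X r hX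
  have h3 : ((range X).filter fun k => ¬ 3 ∣ catalan (2 ^ k - 1)) ⊆
      ((range X).filter fun m => ∀ s, G s (1 * 4 ^ m - 1)).image (fun m => 2 * m) ∪
        ((range X).filter fun m => ∀ s, G s (2 * 4 ^ m - 1)).image (fun m => 2 * m + 1) := by
    intro k hk
    obtain ⟨hk1, hk2⟩ := mem_filter.1 hk
    rw [mem_range] at hk1
    have hG := G_of_catalan hk2
    have h4 : ∀ m, 2 ^ (2 * m) = 4 ^ m := fun m => by rw [pow_mul]; norm_num
    rcases Nat.even_or_odd' k with ⟨m, rfl | rfl⟩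
    · refine mem_union_left _ (mem_image.2 ⟨m, mem_filter.2 ⟨mem_range.2 (by omega), ?_⟩, rfl⟩)
      rwa [one_mul, ← h4]
    · refine mem_union_right _ (mem_image.2 ⟨m, mem_filter.2 ⟨mem_range.2 (by omega), ?_⟩, rfl⟩)
      rwa [← h4, ← pow_succ']
  have h5 := (card_le_card h3).trans ((card_union_le _ _).trans
    (add_le_add card_image_le card_image_le))
  have h6 : (((range X).filter fun k => ¬ 3 ∣ catalan (2 ^ k - 1)).card : ℝ) ≤
      ((range X).filter fun m => ∀ s, G s (1 * 4 ^ m - 1)).card +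
        ((range X).filter fun m => ∀ s, G s (2 * 4 ^ m - 1)).card := by exact_mod_cast h5
  linarith

theorem main (X : ℕ) : (((range X).filter fun k => ¬ 3 ∣ catalan (2 ^ k - 1)).card : ℝ) ≤
    46 * 12 ^ 5 * (X : ℝ) ^ (Real.log 12 / Real.log (243 / 4)) := by
  rcases Nat.eq_zero_or_pos X with rfl | hX
  · simp only [range_zero, filter_empty, card_empty, Nat.cast_zero]
    positivity
  have hX1 : (1 : ℝ) ≤ X := by exact_mod_cast hX
  obtain ⟨r, h1, h2⟩ := exists_nat_pow_near hX1 (show (1 : ℝ) < 243 / 4 by norm_num)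
  have h3 := count3 X (r + 1) h2.le
  have hl : 0 < Real.log (243 / 4) := Real.log_pos (by norm_num)
  have h4 : (12 : ℝ) ^ r ≤ (X : ℝ) ^ (Real.log 12 / Real.log (243 / 4)) := by
    calc (12 : ℝ) ^ r = (((243 / 4 : ℝ)) ^ r) ^ (Real.log 12 / Real.log (243 / 4)) := by
          rw [← Real.rpow_natCast (243 / 4), ← Real.rpow_mul (by norm_num), mul_comm,
            Real.rpow_mul (by norm_num), Real.rpow_natCast]
          congr 1
          rw [Real.rpow_def_of_pos (by norm_num), mul_div_cancel₀ _ hl.ne',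
            Real.exp_log (by norm_num)]
      _ ≤ _ := Real.rpow_le_rpow (by positivity) h1
          (div_nonneg (Real.log_nonneg (by norm_num)) hl.le)
  have h5 : (12 : ℝ) ^ (r + 1 + 4) = 12 ^ 5 * 12 ^ r := by ring
  convert h3.trans (show _ ≤ 46 * 12 ^ 5 * (X : ℝ) ^ (Real.log 12 / Real.log (243 / 4)) by
    rw [h5, mul_assoc]; gcongr)

end Pool.Agent.P.MP_a69370_nt
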