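import Mathlib

/-!
Points of a set on short segments of lines with distinct slopes, modulo a power of three.
-/

open Finset

namespace Pool.Agent.P.MP_a69370_nt

section
variable {q : ℕ} [NeZero q]

/-- average over the translates by multiples of `T` -/
noncomputable def avg (T : ℕ) (g : ZMod q → ℝ) (y : ZMod q) : ℝ :=
  (∑ c : ZMod q, g (y + T * c)) / q

theorem qpos : (0 : ℝ) < q := Nat.cast_pos.2 (Nat.pos_of_ne_zero (NeZero.ne q))

theorem sum_shift (G : ZMod q → ℝ) (a : ZMod q) : ∑ y, G (y + a) = ∑ y, G y :=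
  Fintype.sum_equiv (Equiv.addRight a) _ _ fun _ => rfl

theorem sum_shift' (G : ZMod q → ℝ) (a : ZMod q) : ∑ y, G (a + y) = ∑ y, G y :=
  Fintype.sum_equiv (Equiv.addLeft a) _ _ fun _ => rfl

theorem avg_shift (T : ℕ) (g : ZMod q → ℝ) (y c : ZMod q) : avg T g (y + T * c) = avg T g y := by
  unfold avg
  congr 1
  rw [← sum_shift' (fun c' : ZMod q => g (y + (T : ZMod q) * c')) c]
  refine Finset.sum_congr rfl fun c' _ => ?_
  congr 1
  ring

theorem sum_osc (T : ℕ) (g : ZMod q → ℝ) (y : ZMod q) :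
    ∑ c : ZMod q, (g (y + T * c) - avg T g (y + T * c)) = 0 := by
  simp only [avg_shift, Finset.sum_sub_distrib, Finset.sum_const, card_univ, ZMod.card,
    nsmul_eq_mul]
  unfold avg
  have := qpos (q := q)
  field_simp
  ring

theorem sum_avg (T : ℕ) (g : ZMod q → ℝ) : ∑ y, avg T g y = ∑ y, g y := by
  unfold avg
  rw [← Finset.sum_div, Finset.sum_comm]
  simp only [sum_shift, Finset.sum_const, card_univ, ZMod.card, nsmul_eq_mul]
  have := qpos (q := q)
  field_simp

theorem sum_range_cast (G : ZMod q → ℝ) : ∑ x ∈ range q, G x = ∑ y, G y := by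
  refine Finset.sum_bij (fun x _ => (x : ZMod q)) (fun _ _ => mem_univ _) ?_ ?_ fun _ _ => rfl
  · intro a ha b hb h
    have := (ZMod.natCast_eq_natCast_iff' a b q).1 h
    rwa [Nat.mod_eq_of_lt (mem_range.1 ha), Nat.mod_eq_of_lt (mem_range.1 hb)] at this
  · intro y _
    exact ⟨y.val, mem_range.2 (ZMod.val_lt y), ZMod.natCast_zmod_val y⟩

omit [NeZero q] in
theorem sum_range_per (T : ℕ) (Φ : ZMod q → ℝ) (h : ∀ y c, Φ (y + T * c) = Φ y) (n : ℕ) :
    ∑ x ∈ range (T * n), Φ x = n * ∑ t ∈ range T, Φ t := by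
  induction n with
  | zero => simp
  | succ n ih =>
    rw [Nat.mul_succ, Finset.sum_range_add, ih]
    have : ∀ t ∈ range T, Φ ((T * n + t : ℕ) : ZMod q) = Φ t := by
      intro t _
      rw [← h (t : ZMod q) n]
      congr 1
      push_cast
      ring
    rw [Finset.sum_congr rfl this]
    push_cast
    ring

/-- the main term -/
theorem sum_main {T n : ℕ} (hq : q = T * n) (g : ZMod q → ℝ) {θ : ZMod q} (hθ : IsUnit θ)
    (b : ZMod q) : n * ∑ t ∈ range T, avg T g (b + θ * t) = ∑ y, g y := by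
  have h1 := sum_range_per T (fun y : ZMod q => avg T g (b + θ * y)) (fun y c => by
    rw [← avg_shift T g (b + θ * y) (θ * c)]
    congr 1
    ring) n
  rw [← hq, sum_range_cast (fun y : ZMod q => avg T g (b + θ * y))] at h1
  rw [← h1, ← sum_avg T g, ← sum_shift' (avg T g) b]
  obtain ⟨v, rfl⟩ := hθ
  exact Fintype.sum_equiv v.mulLeft _ _ fun _ => rfl

/-- the second moment over all slopes -/
theorem second_moment {T : ℕ} (f : ZMod q → ℝ) (hf : ∀ y, ∑ c : ZMod q, f (y + T * c) = 0)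
    (hd : ∀ t ∈ range T, ∀ t' ∈ range T, t ≠ t' → ∃ e : ZMod q, ((t' : ZMod q) - t) * e = T) :
    ∑ θ : ZMod q, ∑ y : ZMod q, (∑ t ∈ range T, f (y + θ * t)) ^ 2 = T * (q * ∑ y, f y ^ 2) := by
  have h1 : ∀ t ∈ range T, ∀ t' ∈ range T,
      ∑ θ : ZMod q, ∑ y : ZMod q, f (y + θ * t) * f (y + θ * t') =
        if t = t' then q * ∑ y, f y ^ 2 else 0 := by
    intro t ht t' ht'
    have h2 : ∀ θ : ZMod q, ∑ y : ZMod q, f (y + θ * t) * f (y + θ * t') =
        ∑ y : ZMod q, f y * f (y + θ * ((t' : ZMod q) - t)) := by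
      intro θ
      rw [← sum_shift (fun y => f y * f (y + θ * ((t' : ZMod q) - t))) (θ * t)]
      refine Finset.sum_congr rfl fun y _ => ?_
      congr 2
      ring
    simp only [h2]
    split_ifs with h
    · simp [h, sq]
    · obtain ⟨e, he⟩ := hd t ht t' ht' h
      rw [Finset.sum_comm]
      refine Finset.sum_eq_zero fun y _ => ?_
      rw [← Finset.mul_sum]
      have h3 : (q : ℝ) * ∑ θ : ZMod q, f (y + θ * ((t' : ZMod q) - t)) = 0 := by
        have h4 : ∀ c : ZMod q, ∑ θ : ZMod q, f (y + θ * ((t' : ZMod q) - t)) =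
            ∑ θ : ZMod q, f (y + θ * ((t' : ZMod q) - t) + T * c) := by
          intro c
          rw [← sum_shift (fun θ : ZMod q => f (y + θ * ((t' : ZMod q) - (t : ZMod q)))) (e * c)]
          refine Finset.sum_congr rfl fun θ _ => ?_
          congr 1
          rw [← he]
          ring
        calc (q : ℝ) * ∑ θ : ZMod q, f (y + θ * ((t' : ZMod q) - t))
            = ∑ c : ZMod q, ∑ θ : ZMod q, f (y + θ * ((t' : ZMod q) - t)) := by
              simp [ZMod.card]
          _ = ∑ c : ZMod q, ∑ θ : ZMod q, f (y + θ * ((t' : ZMod q) - t) + T * c) :=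
              Finset.sum_congr rfl fun c _ => h4 c
          _ = 0 := by
              rw [Finset.sum_comm]
              exact Finset.sum_eq_zero fun θ _ => hf _
      rw [(mul_eq_zero.1 h3).resolve_left (qpos (q := q)).ne', mul_zero]
  calc ∑ θ : ZMod q, ∑ y : ZMod q, (∑ t ∈ range T, f (y + θ * t)) ^ 2
      = ∑ θ : ZMod q, ∑ y : ZMod q, ∑ t ∈ range T, ∑ t' ∈ range T,
          f (y + θ * t) * f (y + θ * t') := by
        simp only [sq, Finset.sum_mul_sum]
    _ = ∑ t ∈ range T, ∑ t' ∈ range T, ∑ θ : ZMod q, ∑ y : ZMod q,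
          f (y + θ * t) * f (y + θ * t') := by
        simp only [Finset.sum_comm (s := (univ : Finset (ZMod q))) (t := range T)]
    _ = ∑ t ∈ range T, ∑ t' ∈ range T, if t = t' then (q : ℝ) * ∑ y, f y ^ 2 else 0 :=
        Finset.sum_congr rfl fun t ht => Finset.sum_congr rfl fun t' ht' => h1 t ht t' ht'
    _ = T * (q * ∑ y, f y ^ 2) := by
        rw [Finset.sum_congr rfl (g := fun _ => (q : ℝ) * ∑ y, f y ^ 2)
          fun t ht => by simp [ht]]
        simp

/-- a sum over a segment is bounded through the full second moment -/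
theorem seg_le {T : ℕ} (hT : T ≤ q) (A : ZMod q → ℝ) {θ : ZMod q} (hθ : IsUnit θ) (b : ZMod q)
    {l : ℝ} (hl : 0 < l) :
    ∑ a ∈ range T, A (b - θ * a) ≤ T * l / 2 + (∑ y, A y ^ 2) / (2 * l) := by
  have h1 : ∑ a ∈ range T, A (b - θ * a) ^ 2 ≤ ∑ y, A y ^ 2 := by
    rw [← sum_shift' (fun y => A y ^ 2) b]
    obtain ⟨v, rfl⟩ := hθ
    have h2 : ∑ y : ZMod q, A (b + y) ^ 2 = ∑ y : ZMod q, A (b - (v : ZMod q) * y) ^ 2 :=
      (Fintype.sum_equiv (-v).mulLeft _ _ fun y => by simp [sub_eq_add_neg]).symm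
    rw [h2, ← sum_range_cast (fun y : ZMod q => A (b - (v : ZMod q) * y) ^ 2)]
    exact Finset.sum_le_sum_of_subset_of_nonneg (range_subset_range.2 hT) fun _ _ _ => sq_nonneg _
  have h3 : ∀ x : ℝ, x ≤ l / 2 + x ^ 2 / (2 * l) := by
    intro x
    have : l / 2 + x ^ 2 / (2 * l) - x = (x - l) ^ 2 / (2 * l) := by field_simp; ring
    have h4 : 0 ≤ (x - l) ^ 2 / (2 * l) := by positivity
    linarith
  calc ∑ a ∈ range T, A (b - θ * a) ≤ ∑ a ∈ range T, (l / 2 + A (b - θ * a) ^ 2 / (2 * l)) :=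
        Finset.sum_le_sum fun a _ => h3 _
    _ = T * l / 2 + (∑ a ∈ range T, A (b - θ * a) ^ 2) / (2 * l) := by
        rw [Finset.sum_add_distrib, ← Finset.sum_div, ← Finset.sum_div]
        simp
    _ ≤ _ := by gcongr

omit [NeZero q] in
theorem window {T : ℕ} (g : ZMod q → ℝ) (hg : ∀ y, 0 ≤ g y) (θ b : ZMod q) {a : ℕ} (ha : a ≤ T) :
    ∑ t ∈ range T, g (b + θ * t) ≤
      ∑ t ∈ range T, g (b - θ * a + θ * t) + ∑ t ∈ range T, g (b + θ * T - θ * a + θ * t) := by
  have h1 := Finset.sum_range_add (fun t : ℕ => g (b - θ * a + θ * t)) T T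
  have h2 := Finset.sum_range_add (fun t : ℕ => g (b - θ * a + θ * t)) a T
  have h3 : ∑ t ∈ range (a + T), g (b - θ * a + θ * t) ≤
      ∑ t ∈ range (T + T), g (b - θ * a + θ * t) :=
    Finset.sum_le_sum_of_subset_of_nonneg (range_subset_range.2 (by omega)) fun _ _ _ => hg _
  have h4 : 0 ≤ ∑ t ∈ range a, g (b - θ * a + θ * t) := Finset.sum_nonneg fun _ _ => hg _
  have h5 : ∑ t ∈ range T, g (b - θ * a + θ * ((a + t : ℕ) : ZMod q)) =
      ∑ t ∈ range T, g (b + θ * t) :=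
    Finset.sum_congr rfl fun t _ => by congr 1; push_cast; ring
  have h6 : ∑ t ∈ range T, g (b - θ * a + θ * ((T + t : ℕ) : ZMod q)) =
      ∑ t ∈ range T, g (b + θ * T - θ * a + θ * t) :=
    Finset.sum_congr rfl fun t _ => by congr 1; push_cast; ring
  linarith

/-- the incidence bound -/
theorem incidence {T n : ℕ} (hq : q = T * n)
    (hd : ∀ t ∈ range T, ∀ t' ∈ range T, t ≠ t' → ∃ e : ZMod q, ((t' : ZMod q) - t) * e = T)
    (g : ZMod q → ℝ) (h0 : ∀ y, 0 ≤ g y) (h1 : ∀ y, g y ≤ 1) {ι : Type} (S : Finset ι)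
    (θ b : ι → ZMod q) (hu : ∀ i ∈ S, IsUnit (θ i)) (hi : Set.InjOn θ S) {l : ℝ} (hl : 0 < l) :
    ∑ i ∈ S, ∑ t ∈ range T, g (b i + θ i * t) ≤
      2 * S.card * (∑ y, g y) / n + S.card * l + 2 * q * (∑ y, g y) / l := by
  have hq0 := NeZero.ne q
  have hT : 0 < T := Nat.pos_of_ne_zero fun h => hq0 (by rw [hq, h, zero_mul])
  have hn : 0 < n := Nat.pos_of_ne_zero fun h => hq0 (by rw [hq, h, mul_zero])
  have hTq : T ≤ q := by rw [hq]; exact Nat.le_mul_of_pos_right _ hn
  have hTr : (0 : ℝ) < T := Nat.cast_pos.2 hT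
  have hnr : (0 : ℝ) < n := Nat.cast_pos.2 hn
  have hqr := qpos (q := q)
  set m : ℝ := ∑ y, g y with hm
  set f : ZMod q → ℝ := fun y => g y - avg T g y with hf
  have ha0 : ∀ y, 0 ≤ avg T g y := fun y =>
    div_nonneg (Finset.sum_nonneg fun _ _ => h0 _) hqr.le
  have ha1 : ∀ y, avg T g y ≤ 1 := fun y => by
    unfold avg
    rw [div_le_one hqr]
    calc ∑ c : ZMod q, g (y + T * c) ≤ ∑ _c : ZMod q, (1 : ℝ) := Finset.sum_le_sum fun _ _ => h1 _
      _ = q := by simp [ZMod.card]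
  have hf2 : ∑ y, f y ^ 2 ≤ 2 * m := by
    calc ∑ y, f y ^ 2 ≤ ∑ y, (g y + avg T g y) := Finset.sum_le_sum fun y _ => by
          have := h0 y; have := h1 y; have := ha0 y; have := ha1 y
          simp only [hf]
          nlinarith
      _ = 2 * m := by rw [Finset.sum_add_distrib, sum_avg]; ring
  set A : ZMod q → ZMod q → ℝ := fun θ y => ∑ t ∈ range T, f (y + θ * t) with hA
  have hsplit : ∀ i ∈ S, ∀ y, ∑ t ∈ range T, g (y + θ i * t) = m / n + A (θ i) y := by
    intro i hiS y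
    have h2 := sum_main hq g (hu i hiS) y
    simp only [hA, hf, Finset.sum_sub_distrib]
    rw [hm, ← h2]
    field_simp
    ring
  have hone : ∀ i ∈ S, T * ∑ t ∈ range T, g (b i + θ i * t) ≤
      2 * T * m / n + T * l + (∑ y, A (θ i) y ^ 2) / l := by
    intro i hiS
    have h2 := seg_le hTq (A (θ i)) (hu i hiS) (b i) hl
    have h3 := seg_le hTq (A (θ i)) (hu i hiS) (b i + θ i * T) hl
    calc (T : ℝ) * ∑ t ∈ range T, g (b i + θ i * t)
        = ∑ _a ∈ range T, ∑ t ∈ range T, g (b i + θ i * t) := by simp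
      _ ≤ ∑ a ∈ range T, (m / n + A (θ i) (b i - θ i * a) +
            (m / n + A (θ i) (b i + θ i * T - θ i * a))) := Finset.sum_le_sum fun a ha => by
          rw [← hsplit i hiS, ← hsplit i hiS]
          exact window g h0 _ _ (mem_range.1 ha).le
      _ = 2 * T * m / n + (∑ a ∈ range T, A (θ i) (b i - θ i * a) +
            ∑ a ∈ range T, A (θ i) (b i + θ i * T - θ i * a)) := by
          simp only [Finset.sum_add_distrib, Finset.sum_const, card_range, nsmul_eq_mul]
          ring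
      _ ≤ _ := by
          have : (∑ y, A (θ i) y ^ 2) / l = 2 * ((∑ y, A (θ i) y ^ 2) / (2 * l)) := by field_simp
          linarith
  have hsec : ∑ i ∈ S, ∑ y, A (θ i) y ^ 2 ≤ T * (q * (2 * m)) := by
    calc ∑ i ∈ S, ∑ y, A (θ i) y ^ 2 = ∑ φ ∈ S.image θ, ∑ y, A φ y ^ 2 :=
          (Finset.sum_image (f := fun φ => ∑ y, A φ y ^ 2) hi).symm
      _ ≤ ∑ φ : ZMod q, ∑ y, A φ y ^ 2 :=
          Finset.sum_le_sum_of_subset_of_nonneg (subset_univ _)
            fun _ _ _ => Finset.sum_nonneg fun _ _ => sq_nonneg _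
      _ = T * (q * ∑ y, f y ^ 2) := second_moment f (sum_osc T g) hd
      _ ≤ _ := by gcongr
  refine le_of_mul_le_mul_left ?_ hTr
  calc (T : ℝ) * ∑ i ∈ S, ∑ t ∈ range T, g (b i + θ i * t)
      = ∑ i ∈ S, T * ∑ t ∈ range T, g (b i + θ i * t) := Finset.mul_sum _ _ _
    _ ≤ ∑ i ∈ S, (2 * T * m / n + T * l + (∑ y, A (θ i) y ^ 2) / l) := Finset.sum_le_sum hone
    _ = S.card * (2 * T * m / n + T * l) + (∑ i ∈ S, ∑ y, A (θ i) y ^ 2) / l := by
        rw [Finset.sum_add_distrib, ← Finset.sum_div, Finset.sum_const, nsmul_eq_mul]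
    _ ≤ S.card * (2 * T * m / n + T * l) + T * (q * (2 * m)) / l := by gcongr
    _ = _ := by ring

end

end Pool.Agent.P.MP_a69370_nt
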